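import Pool.Graph.R_pool_sql_team_seeded_5cf16337.Results.MP_4d1008_ag.AlgebraicTori

/-!
The inertia groups of cyclotomic extensions of number fields.
-/

set_option autoImplicit false

namespace Pool.Agent.H865.NF

open Pool.Agent.Results.MP_4d1008_ag.AlgebraicTori

open scoped NumberField

/-- Roots of unity of order prime to `𝔓` are distinct modulo `𝔓`. -/
lemma root_eq_of_sub_mem {O : Type} [CommRing O] [IsDomain O] (𝔓 : Ideal O) [𝔓.IsPrime] {r m : ℕ}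
    (hr : (r : O) ∈ 𝔓) (hrm : Nat.Coprime r m) {ξ : O} (hξ : IsPrimitiveRoot ξ m) (hm : 0 < m)
    {i j : ℕ} (hi : i < m) (hj : j < m) (h : ξ ^ i - ξ ^ j ∈ 𝔓) : i = j := by
  -- the case `i < j`
  have key : ∀ i j : ℕ, i < j → j < m → ξ ^ i - ξ ^ j ∈ 𝔓 → False := by
    intro i j hij hj h
    obtain ⟨d, rfl⟩ := Nat.exists_eq_add_of_lt hij
    have h1 : ξ ^ i - ξ ^ (i + d + 1) = ξ ^ i * (1 - ξ ^ (d + 1)) := by ring
    rw [h1] at h
    have hunit : IsUnit (ξ ^ i) := (hξ.isUnit hm.ne').pow i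
    have h2 : 1 - ξ ^ (d + 1) ∈ 𝔓 := by
      rcases (Ideal.IsPrime.mem_or_mem ‹𝔓.IsPrime› h) with h3 | h3
      · exact absurd (Ideal.eq_top_of_isUnit_mem _ h3 hunit) (Ideal.IsPrime.ne_top ‹_›)
      · exact h3
    obtain ⟨m', rfl⟩ : ∃ m', m = m' + 1 := ⟨m - 1, by omega⟩
    have h3 := hξ.prod_one_sub_pow_eq_order
    have h4 : ∏ k ∈ Finset.range m', (1 - ξ ^ (k + 1)) ∈ 𝔓 := by
      have hd : d ∈ Finset.range m' := by
        rw [Finset.mem_range]
        omega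
      rw [← Finset.mul_prod_erase _ _ hd]
      exact 𝔓.mul_mem_right _ h2
    rw [h3] at h4
    have h5 : ((m' + 1 : ℕ) : O) ∈ 𝔓 := by
      push_cast
      exact h4
    have h6 := Nat.isCoprime_iff_coprime.2 hrm
    obtain ⟨u, w, huw⟩ := h6
    have h7 : (1 : O) = (u : O) * (r : O) + (w : O) * ((m' + 1 : ℕ) : O) := by
      have h8 := congrArg (Int.cast : ℤ → O) huw
      push_cast at h8 ⊢
      exact h8.symm
    have h8 : (1 : O) ∈ 𝔓 := by
      rw [h7]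
      exact 𝔓.add_mem (𝔓.mul_mem_left _ hr) (𝔓.mul_mem_left _ h5)
    exact Ideal.IsPrime.ne_top ‹𝔓.IsPrime› ((Ideal.eq_top_iff_one _).2 h8)
  rcases lt_trichotomy i j with h1 | h1 | h1
  · exact (key i j h1 hj h).elim
  · exact h1
  · refine (key j i h1 hi ?_).elim
    have h2 : ξ ^ j - ξ ^ i = -(ξ ^ i - ξ ^ j) := by ring
    rw [h2]
    exact 𝔓.neg_mem h

theorem not_dvd_inertia (E M : Type) [Field E] [NumberField E] [Field M] [NumberField M]
    [Algebra E M] {m : ℕ} [NeZero m] [IsCyclotomicExtension {m} E M]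
    (hm : ∀ p : ℕ, p.Prime → ¬ p ^ 3 ∣ m) (𝔓 : Ideal (𝓞 M)) (h𝔓 : 𝔓.IsMaximal) :
    ¬ ResCharPowDvd E 𝔓 2 := by
  rintro ⟨r, hr, hr𝔓, hdvd⟩
  have : 𝔓.IsPrime := h𝔓.isPrime
  have h1 : ((Pool.Agent.Y223.G.inert E 𝔓 : Subgroup (M ≃ₐ[E] M)) : Set (M ≃ₐ[E] M)) =
      inertiaGroup E 𝔓 := by
    ext g
    constructor
    · intro hg o
      exact ⟨_, hg o, rfl⟩
    · intro hg o
      obtain ⟨e, he, h⟩ := hg o
      have h2 : e = Pool.Agent.Y223.G.TT E M g o - o := by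
        apply NumberField.RingOfIntegers.coe_injective
        exact h
      rw [← h2]
      exact he
  set H : Subgroup (M ≃ₐ[E] M) := Pool.Agent.Y223.G.inert E 𝔓 with hH
  have hcard : Nat.card H = Nat.card (inertiaGroup E 𝔓) :=
    congrArg (fun S : Set (M ≃ₐ[E] M) => Nat.card S) h1
  rw [← hcard] at hdvd
  have hHmem : ∀ g ∈ H, ∀ o : 𝓞 M, ∃ e ∈ 𝔓, (e : M) = g o - o := by
    intro g hg
    have h2 : g ∈ (H : Set (M ≃ₐ[E] M)) := hg
    rw [h1] at h2
    exact h2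
  have hζ := IsCyclotomicExtension.zeta_spec m E M
  set ζ := IsCyclotomicExtension.zeta m E M with hζdef
  -- `m = r ^ a * m'`
  obtain ⟨a, m', hm', hmeq⟩ := Nat.exists_eq_pow_mul_and_not_dvd (NeZero.ne m) r hr.ne_one
  have ha : a ≤ 2 := by
    by_contra h
    apply hm r hr
    rw [hmeq]
    exact dvd_mul_of_dvd_left (pow_dvd_pow r (by omega)) _
  have hm'0 : 0 < m' := by
    rcases Nat.eq_zero_or_pos m' with h | h
    · rw [h] at hm'
      exact absurd (dvd_zero r) hm'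
    · exact h
  have hra0 : 0 < r ^ a := pow_pos hr.pos a
  have hcop : Nat.Coprime r m' := (Nat.Prime.coprime_iff_not_dvd hr).2 hm'
  have : NeZero (r ^ a) := ⟨hra0.ne'⟩
  have : NeZero m' := ⟨hm'0.ne'⟩
  have hζa : IsPrimitiveRoot (ζ ^ m') (r ^ a) :=
    hζ.pow (NeZero.pos m) (by rw [hmeq, mul_comm])
  have hζm : IsPrimitiveRoot (ζ ^ r ^ a) m' := hζ.pow (NeZero.pos m) hmeq
  -- the inertia group fixes the roots of unity of order prime to `r`
  have hfixm : ∀ g ∈ H, g (ζ ^ r ^ a) = ζ ^ r ^ a := by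
    intro g hg
    set ξ : 𝓞 M := hζm.toInteger with hξ
    have hξM : (ξ : M) = ζ ^ r ^ a := rfl
    have hξp : IsPrimitiveRoot ξ m' := hζm.toInteger_isPrimitiveRoot
    obtain ⟨e, he, h2⟩ := hHmem g hg ξ
    have h3 : (g (ζ ^ r ^ a)) ^ m' = 1 := by
      rw [← map_pow, hζm.pow_eq_one, map_one]
    obtain ⟨k, hk, h4⟩ := hζm.eq_pow_of_pow_eq_one h3
    have h5 : ∃ k', k' < m' ∧ ξ ^ 1 = ξ ^ k' := by
      refine ⟨1 % m', Nat.mod_lt _ hm'0, ?_⟩
      have h6 := pow_mod_orderOf ξ 1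
      rw [← hξp.eq_orderOf] at h6
      exact h6.symm
    obtain ⟨k', hk', h6⟩ := h5
    have h7 : e = ξ ^ k - ξ ^ k' := by
      apply NumberField.RingOfIntegers.coe_injective
      rw [← h6, pow_one]
      rw [map_sub, map_pow]
      change (e : M) = (ξ : M) ^ k - (ξ : M)
      rw [h2, hξM, h4]
    rw [h7] at he
    have h8 := root_eq_of_sub_mem 𝔓 hr𝔓 hcop hξp hm'0 hk hk' he
    have h9 : ((ξ ^ k : 𝓞 M) : M) = ((ξ ^ 1 : 𝓞 M) : M) := by
      rw [h8, ← h6]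
    rw [← h4]
    have h10 : ((ξ ^ k : 𝓞 M) : M) = (ζ ^ r ^ a) ^ k :=
      map_pow (algebraMap (𝓞 M) M) ξ k
    rw [← h10, h9, pow_one]
    exact hξM
  -- the embedding of the inertia group
  let ψ : H →* (ZMod (r ^ a))ˣ := (hζa.autToPow E).comp H.subtype
  have hψ : Function.Injective ψ := by
    rw [injective_iff_map_eq_one]
    intro g hg
    have h2 : (g : M ≃ₐ[E] M) (ζ ^ m') = ζ ^ m' := by
      have h3 := hζa.autToPow_spec E (g : M ≃ₐ[E] M)
      have h4 : hζa.autToPow E (g : M ≃ₐ[E] M) = 1 := hg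
      rw [h4] at h3
      rw [← h3, Units.val_one]
      have h5 : ((ζ ^ m') ^ (1 : ZMod (r ^ a)).val) = (ζ ^ m') ^ 1 := by
        rw [ZMod.val_one_eq_one_mod]
        have h6 := pow_mod_orderOf (ζ ^ m') 1
        rw [← hζa.eq_orderOf] at h6
        exact h6
      rw [h5, pow_one]
    have h3 := hfixm g g.2
    -- `ζ` is a product of powers
    have hcop' : Nat.Coprime m' (r ^ a) := (hcop.symm).pow_right a
    obtain ⟨u, w, huw⟩ := Nat.isCoprime_iff_coprime.2 hcop'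
    have hζ0 : ζ ≠ 0 := hζ.ne_zero (NeZero.ne m)
    have h4 : ζ = (ζ ^ m') ^ u * (ζ ^ r ^ a) ^ w := by
      rw [← zpow_natCast ζ m', ← zpow_natCast ζ (r ^ a), ← zpow_mul, ← zpow_mul,
        ← zpow_add₀ hζ0]
      rw [mul_comm (m' : ℤ) u, mul_comm ((r ^ a : ℕ) : ℤ) w, huw, zpow_one]
    have h5 : (g : M ≃ₐ[E] M) ζ = ζ := by
      conv_lhs => rw [h4]
      rw [map_mul, map_zpow₀, map_zpow₀, h2, h3, ← h4]
    apply Subtype.ext
    refine IsCyclotomicExtension.algEquiv_eq_of_apply_eq {m} E M (fun n hn _ => ?_)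
    rw [Set.mem_singleton_iff] at hn
    subst hn
    exact ⟨ζ, hζ, h5⟩
  have h2 : Nat.card H ∣ Nat.card (ZMod (r ^ a))ˣ := Subgroup.card_dvd_of_injective ψ hψ
  rw [Nat.card_eq_fintype_card (α := (ZMod (r ^ a))ˣ), ZMod.card_units_eq_totient] at h2
  have h3 : r ^ 2 ∣ (r ^ a).totient := hdvd.trans h2
  have h4 : 0 < (r ^ a).totient := Nat.totient_pos.2 hra0
  have h5 : (r ^ a).totient < r ^ 2 := by
    have h6 : (r ^ a).totient ≤ (r ^ 2).totient := by
      apply Nat.le_of_dvd (Nat.totient_pos.2 (pow_pos hr.pos 2))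
      exact Nat.totient_dvd_of_dvd (pow_dvd_pow r ha)
    refine h6.trans_lt (Nat.totient_lt _ ?_)
    exact Nat.one_lt_pow (by norm_num) hr.one_lt
  exact absurd (Nat.le_of_dvd h4 h3) (not_le.2 h5)

end Pool.Agent.H865.NF
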