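import Mathlib

/-!
Fields of rational functions: homomorphisms, base change to a Galois extension, descent.
-/

set_option autoImplicit false
set_option linter.unusedSectionVars false

namespace Pool.Agent.H865.NF

open MvPolynomial

section lift

variable {E L ι : Type} [Field E] [Field L] [Algebra E L] {x : ι → L}

/-- Two homomorphisms which agree on the constants and the variables are equal. -/
lemma hom_ext {N : Type} [Field N] (hgen : IntermediateField.adjoin E (Set.range x) = ⊤)
    {φ ψ : L →+* N} (h1 : ∀ c, φ (algebraMap E L c) = ψ (algebraMap E L c))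
    (h2 : ∀ i, φ (x i) = ψ (x i)) (z : L) : φ z = ψ z := by
  have hz : z ∈ IntermediateField.adjoin E (Set.range x) := by rw [hgen]; trivial
  induction hz using IntermediateField.adjoin_induction with
  | mem y hy =>
    obtain ⟨i, rfl⟩ := hy
    exact h2 i
  | algebraMap c => exact h1 c
  | add y w _ _ hy hw => rw [map_add, map_add, hy, hw]
  | inv y _ hy => rw [map_inv₀, map_inv₀, hy]
  | mul y w _ _ hy hw => rw [map_mul, map_mul, hy, hw]

/-- A homomorphism with given values on the constants and the variables. -/
lemma exists_lift {N : Type} [Field N] (hind : AlgebraicIndependent E x)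
    (hgen : IntermediateField.adjoin E (Set.range x) = ⊤) (s : E →+* N) (y : ι → N)
    (hy : Function.Injective (eval₂Hom s y)) :
    ∃ φ : L →+* N, (∀ c, φ (algebraMap E L c) = s c) ∧ ∀ i, φ (x i) = y i := by
  letI : Algebra (MvPolynomial ι E) L := (aeval x : MvPolynomial ι E →ₐ[E] L).toRingHom.toAlgebra
  have hal : ∀ p : MvPolynomial ι E, algebraMap (MvPolynomial ι E) L p = aeval x p := fun p => rfl
  have hinj : Function.Injective (algebraMap (MvPolynomial ι E) L) := hind
  have hfs : FaithfulSMul (MvPolynomial ι E) L := (faithfulSMul_iff_algebraMap_injective _ _).2 hinj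
  have hfrac : IsFractionRing (MvPolynomial ι E) L := by
    refine IsFractionRing.of_field _ _ fun z => ?_
    have hz : z ∈ IntermediateField.adjoin E (Set.range x) := by rw [hgen]; trivial
    rw [IntermediateField.mem_adjoin_range_iff] at hz
    obtain ⟨r, s, h⟩ := hz
    exact ⟨r, s, h⟩
  refine ⟨IsFractionRing.lift hy, fun c => ?_, fun i => ?_⟩
  · have h1 : algebraMap E L c = algebraMap (MvPolynomial ι E) L (C c) := by
      rw [hal, aeval_C]
    rw [h1, IsFractionRing.lift_algebraMap, coe_eval₂Hom, eval₂_C]
  · have h1 : x i = algebraMap (MvPolynomial ι E) L (X i) := by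
      rw [hal, aeval_X]
    rw [h1, IsFractionRing.lift_algebraMap, coe_eval₂Hom, eval₂_X]

end lift

section base

variable {E M L A : Type} [Field E] [Field M] [Field L] [Algebra E M] [Algebra E L]
  [Algebra.IsAlgebraic E M] [Group A] {ι : Type} {x : ι → L}

/-- The field of rational functions over `M`, with the action of the Galois group and of `A`. -/
theorem exists_base (hind : AlgebraicIndependent E x)
    (hgen : IntermediateField.adjoin E (Set.range x) = ⊤) (α : A →* (L ≃ₐ[E] L)) :
    ∃ (N : Type) (_ : Field N) (_ : Algebra M N) (_ : Algebra E N) (_ : IsScalarTower E M N)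
      (j : L →ₐ[E] N) (γ : (M ≃ₐ[E] M) →* (N ≃ₐ[E] N)) (τ : A →* (N ≃ₐ[M] N)),
      AlgebraicIndependent M (fun i => j (x i)) ∧
      IntermediateField.adjoin M (Set.range fun i => j (x i)) = ⊤ ∧
      (∀ g c, γ g (algebraMap M N c) = algebraMap M N (g c)) ∧ (∀ g z, γ g (j z) = j z) ∧
      (∀ a z, τ a (j z) = j (α a z)) ∧ ∀ g a z, γ g (τ a z) = τ a (γ g z) := by
  classical
  let N := FractionRing (MvPolynomial ι M)
  let y : ι → N := fun i => algebraMap (MvPolynomial ι M) N (X i)
  have hyM : AlgebraicIndependent M y := by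
    have h1 : AlgebraicIndependent M (X : ι → MvPolynomial ι M) :=
      MvPolynomial.algebraicIndependent_X ι M
    exact h1.map' (f := IsScalarTower.toAlgHom M (MvPolynomial ι M) N)
      (IsFractionRing.injective (MvPolynomial ι M) N)
  have hgenM : IntermediateField.adjoin M (Set.range y) = ⊤ := by
    rw [eq_top_iff]
    intro z _
    rw [IntermediateField.mem_adjoin_range_iff]
    obtain ⟨p, q, hq, rfl⟩ := IsFractionRing.div_surjective (A := MvPolynomial ι M) z
    have h1 : ∀ p : MvPolynomial ι M, algebraMap (MvPolynomial ι M) N p = aeval y p := by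
      intro p
      have h2 : IsScalarTower.toAlgHom M (MvPolynomial ι M) N = aeval y := by
        apply MvPolynomial.algHom_ext
        intro i
        rw [aeval_X]
        rfl
      exact DFunLike.congr_fun h2 p
    exact ⟨p, q, by rw [h1, h1]⟩
  have hyE : AlgebraicIndependent E y := by
    have h1 : AlgebraicIndependent E (X : ι → MvPolynomial ι E) :=
      MvPolynomial.algebraicIndependent_X ι E
    have h2 : Function.Injective (map (algebraMap E M) : MvPolynomial ι E → MvPolynomial ι M) :=
      map_injective _ (algebraMap E M).injective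
    have h3 : ∀ p : MvPolynomial ι E,
        aeval y p = algebraMap (MvPolynomial ι M) N (map (algebraMap E M) p) := by
      intro p
      have h4 : (aeval y : MvPolynomial ι E →ₐ[E] N) =
          (IsScalarTower.toAlgHom E (MvPolynomial ι M) N).comp
            (mapAlgHom (Algebra.ofId E M)) := by
        apply MvPolynomial.algHom_ext
        intro i
        rw [aeval_X, AlgHom.comp_apply, mapAlgHom_apply, map_X]
        rfl
      rw [h4]
      rfl
    intro p q hpq
    have h5 : algebraMap (MvPolynomial ι M) N (map (algebraMap E M) p) =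
        algebraMap (MvPolynomial ι M) N (map (algebraMap E M) q) := by
      rw [← h3, ← h3]
      exact hpq
    exact h2 (IsFractionRing.injective (MvPolynomial ι M) N h5)
  -- the embedding of `L`
  obtain ⟨j₀, hj₀E, hj₀x⟩ := exists_lift hind hgen (algebraMap E N) y (by
    have h1 : (eval₂Hom (algebraMap E N) y : MvPolynomial ι E →+* N) =
        (aeval y : MvPolynomial ι E →ₐ[E] N) := rfl
    rw [h1]
    exact hyE)
  let j : L →ₐ[E] N := { j₀ with commutes' := hj₀E }
  have hjx : ∀ i, j (x i) = y i := hj₀x
  have hj : ∀ z, j z = j₀ z := fun z => rfl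
  -- the automorphisms
  have hex : ∀ (g : M ≃ₐ[E] M) (a : A), ∃ φ : N →+* N,
      (∀ c, φ (algebraMap M N c) = algebraMap M N (g c)) ∧ ∀ i, φ (y i) = j (α a (x i)) := by
    intro g a
    apply exists_lift hyM hgenM ((algebraMap M N).comp (g : M →+* M)) (fun i => j (α a (x i)))
    have h1 : AlgebraicIndependent E (fun i => j (α a (x i))) :=
      (hind.map' (f := (α a : L →ₐ[E] L)) (α a).injective).map' (f := j) j.toRingHom.injective
    have h2 : AlgebraicIndependent M (fun i => j (α a (x i))) := h1.extendScalars M
    have h3 : ∀ p : MvPolynomial ι M,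
        eval₂Hom ((algebraMap M N).comp (g : M →+* M)) (fun i => j (α a (x i))) p =
          aeval (fun i => j (α a (x i))) (map (g : M →+* M) p) := by
      intro p
      rw [aeval_def, eval₂_map]
      rfl
    intro p q hpq
    rw [h3, h3] at hpq
    exact map_injective _ g.injective (h2 hpq)
  choose φ hφM hφy using hex
  have hφj : ∀ g a z, φ g a (j z) = j (α a z) := by
    intro g a z
    refine hom_ext (φ := (φ g a).comp (j : L →+* N)) (ψ := (j : L →+* N).comp (α a : L →+* L))
      hgen ?_ ?_ z
    · intro c
      change φ g a (j (algebraMap E L c)) = j (α a (algebraMap E L c))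
      rw [AlgEquiv.commutes, AlgHom.commutes, IsScalarTower.algebraMap_apply E M N, hφM,
        AlgEquiv.commutes]
    · intro i
      change φ g a (j (x i)) = j (α a (x i))
      rw [hjx, hφy]
  have hφmul : ∀ g g' a a' z, φ g a (φ g' a' z) = φ (g * g') (a * a') z := by
    intro g g' a a' z
    refine hom_ext (φ := (φ g a).comp (φ g' a')) (ψ := φ (g * g') (a * a')) hgenM ?_ ?_ z
    · intro c
      change φ g a (φ g' a' (algebraMap M N c)) = _
      rw [hφM, hφM, hφM]
      rfl
    · intro i
      change φ g a (φ g' a' (y i)) = _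
      rw [hφy, hφj, hφy, map_mul]
      rfl
  have hφone : ∀ z, φ 1 1 z = z := by
    intro z
    refine hom_ext (φ := φ 1 1) (ψ := RingHom.id N) hgenM ?_ ?_ z
    · intro c
      rw [hφM]
      rfl
    · intro i
      rw [hφy, map_one]
      exact hjx i
  have hφmul' : ∀ g g' a a', φ (g * g') (a * a') = (φ g a).comp (φ g' a') := by
    intro g g' a a'
    ext z
    · exact (RingHom.congr_fun (RingHom.ext fun z => (hφmul g g' a a' z).symm :
        φ (g * g') (a * a') = (φ g a).comp (φ g' a')) z)
  let γ : (M ≃ₐ[E] M) →* (N ≃ₐ[E] N) :=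
    { toFun := fun g =>
        { toFun := φ g 1
          invFun := φ g⁻¹ 1
          left_inv := fun z => by rw [hφmul, inv_mul_cancel, one_mul, hφone]
          right_inv := fun z => by rw [hφmul, mul_inv_cancel, one_mul, hφone]
          map_mul' := map_mul _
          map_add' := map_add _
          commutes' := fun c => by
            rw [IsScalarTower.algebraMap_apply E M N, hφM, AlgEquiv.commutes] }
      map_one' := by
        ext z
        exact hφone z
      map_mul' := fun g g' => by
        ext z
        change φ (g * g') 1 z = φ g 1 (φ g' 1 z)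
        rw [hφmul, one_mul] }
  let τ : A →* (N ≃ₐ[M] N) :=
    { toFun := fun a =>
        { toFun := φ 1 a
          invFun := φ 1 a⁻¹
          left_inv := fun z => by rw [hφmul, inv_mul_cancel, one_mul, hφone]
          right_inv := fun z => by rw [hφmul, mul_inv_cancel, one_mul, hφone]
          map_mul' := map_mul _
          map_add' := map_add _
          commutes' := fun c => by
            rw [hφM]
            rfl }
      map_one' := by
        ext z
        exact hφone z
      map_mul' := fun a a' => by
        ext z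
        change φ 1 (a * a') z = φ 1 a (φ 1 a' z)
        rw [hφmul, one_mul] }
  refine ⟨N, inferInstance, inferInstance, inferInstance, inferInstance, j, γ, τ, ?_, ?_, ?_, ?_,
    ?_, ?_⟩
  · rw [funext hjx]
    exact hyM
  · rw [funext hjx]
    exact hgenM
  · intro g c
    exact hφM g 1 c
  · intro g z
    change φ g 1 (j z) = j z
    rw [hφj, map_one]
    rfl
  · intro a z
    exact hφj 1 a z
  · intro g a z
    change φ g 1 (φ 1 a z) = φ 1 a (φ g 1 z)
    rw [hφmul, hφmul, one_mul, mul_one, one_mul, mul_one]

end base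

section descent

variable {E M L N : Type} [Field E] [Field M] [Field L] [Field N] [Algebra E M] [Algebra E L]
  [Algebra M N] [Algebra E N] [IsScalarTower E M N] [IsGalois E M] [FiniteDimensional E M]
  {ι : Type} {x : ι → L} {j : L →ₐ[E] N} {γ : (M ≃ₐ[E] M) →* (N ≃ₐ[E] N)}

lemma gamma_aeval (hγM : ∀ g c, γ g (algebraMap M N c) = algebraMap M N (g c))
    (hγj : ∀ g z, γ g (j z) = j z) (g : M ≃ₐ[E] M) (p : MvPolynomial ι M) :
    γ g (aeval (fun i => j (x i)) p) = aeval (fun i => j (x i)) (map (g : M →+* M) p) := by
  induction p using MvPolynomial.induction_on with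
  | C c =>
    rw [aeval_C, map_C, aeval_C, hγM]
    rfl
  | add p q hp hq => rw [map_add, map_add, map_add, map_add, hp, hq]
  | mul_X p i hp => rw [map_mul, map_mul, map_mul, map_mul, hp, map_X, aeval_X, hγj]

/-- Invariant polynomials have coefficients in `E`. -/
lemma exists_of_fixed_poly (hind : AlgebraicIndependent M (fun i => j (x i)))
    (hγM : ∀ g c, γ g (algebraMap M N c) = algebraMap M N (g c))
    (hγj : ∀ g z, γ g (j z) = j z) (p : MvPolynomial ι M)
    (hp : ∀ g, γ g (aeval (fun i => j (x i)) p) = aeval (fun i => j (x i)) p) :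
    ∃ z : L, j z = aeval (fun i => j (x i)) p := by
  have h1 : ∀ g : M ≃ₐ[E] M, map (g : M →+* M) p = p := by
    intro g
    have h2 := hp g
    rw [gamma_aeval hγM hγj] at h2
    exact hind h2
  have h2 : ∀ m, ∃ c : E, algebraMap E M c = coeff m p := by
    intro m
    have h3 : coeff m p ∈ (⊥ : IntermediateField E M) := by
      rw [IsGalois.mem_bot_iff_fixed]
      intro g
      have h4 := congrArg (coeff m) (h1 g)
      rw [coeff_map] at h4
      exact h4
    exact IntermediateField.mem_bot.1 h3
  choose c hc using h2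
  have h3 : p ∈ Set.range (map (algebraMap E M) : MvPolynomial ι E → MvPolynomial ι M) := by
    rw [mem_range_map_iff_coeffs_subset]
    intro r hr
    obtain ⟨m, _, rfl⟩ := mem_coeffs_iff.1 hr
    exact ⟨c m, hc m⟩
  obtain ⟨q, rfl⟩ := h3
  refine ⟨aeval x q, ?_⟩
  have h4 : j (aeval x q) = aeval (fun i => j (x i)) q := by
    rw [aeval_def, aeval_def, ← AlgHom.coe_toRingHom, hom_eval₂]
    congr 1
    ext c
    exact j.commutes c
  rw [h4, aeval_def, aeval_def, eval₂_map, IsScalarTower.algebraMap_eq E M N]

theorem descent (hind : AlgebraicIndependent M (fun i => j (x i)))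
    (hgen : IntermediateField.adjoin M (Set.range fun i => j (x i)) = ⊤)
    (hγM : ∀ g c, γ g (algebraMap M N c) = algebraMap M N (g c))
    (hγj : ∀ g z, γ g (j z) = j z) (z : N) (hz : ∀ g, γ g z = z) : ∃ f : L, j f = z := by
  classical
  have hz' : z ∈ IntermediateField.adjoin M (Set.range fun i => j (x i)) := by
    rw [hgen]; trivial
  rw [IntermediateField.mem_adjoin_range_iff] at hz'
  obtain ⟨p, q, rfl⟩ := hz'
  set ev : MvPolynomial ι M →ₐ[M] N := aeval (fun i => j (x i)) with hev
  by_cases hq0 : ev q = 0
  · exact ⟨0, by rw [hq0, div_zero, map_zero]⟩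
  set Q : MvPolynomial ι M := ∏ g : M ≃ₐ[E] M, map (g : M →+* M) q with hQ
  have hQev : ev Q = ∏ g : M ≃ₐ[E] M, γ g (ev q) := by
    rw [hQ, map_prod]
    exact Finset.prod_congr rfl fun g _ => (gamma_aeval hγM hγj g q).symm
  have hQ0 : ev Q ≠ 0 := by
    rw [hQev]
    exact Finset.prod_ne_zero_iff.2 fun g _ => (map_ne_zero (γ g)).2 hq0
  have hQa : ∀ g, γ g (ev Q) = ev Q := by
    intro g
    rw [hQev, map_prod]
    refine Fintype.prod_equiv (Equiv.mulLeft g) _ _ fun c => ?_
    change γ g (γ c (ev q)) = γ (g * c) (ev q)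
    rw [map_mul]
    rfl
  have hQ1 : Q = q * ∏ g ∈ Finset.univ.erase (1 : M ≃ₐ[E] M), map (g : M →+* M) q := by
    rw [hQ, ← Finset.mul_prod_erase Finset.univ
      (fun g : M ≃ₐ[E] M => map (g : M →+* M) q) (Finset.mem_univ 1)]
    congr 1
    have h1 : ((1 : M ≃ₐ[E] M) : M →+* M) = RingHom.id M := rfl
    rw [h1, map_id]
  set P : MvPolynomial ι M := p * ∏ g ∈ Finset.univ.erase (1 : M ≃ₐ[E] M), map (g : M →+* M) q
    with hP
  have hPev : ev P = ev p / ev q * ev Q := by
    rw [hP, hQ1, map_mul, map_mul]
    field_simp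
  have hPa : ∀ g, γ g (ev P) = ev P := by
    intro g
    rw [hPev, map_mul, hz g, hQa g]
  obtain ⟨z₁, h1⟩ := exists_of_fixed_poly hind hγM hγj P hPa
  obtain ⟨z₂, h2⟩ := exists_of_fixed_poly hind hγM hγj Q hQa
  refine ⟨z₁ / z₂, ?_⟩
  rw [map_div₀, h1, h2]
  change ev P / ev Q = _
  rw [hPev]
  field_simp

end descent

end Pool.Agent.H865.NF
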