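import Pool.Agent.H865.NF.Tor
import Pool.Agent.H865.NF.Field
import Pool.Agent.H865.NF.Basis

/-!
Quotients of linear representations of finite abelian groups over number fields.
-/

set_option autoImplicit false
set_option linter.unusedSectionVars false
set_option linter.style.haveILetI false

namespace Pool.Agent.H865.NF

open AlgebraicGeometry CategoryTheory CategoryTheory.Limits MvPolynomial
open Pool.Agent.Results.MP_4d1008_ag.AlgebraicTori

open scoped NumberField

lemma finite_lat {B : Type} [Fintype B] (S : AddSubgroup (B → ℤ)) : Module.Finite ℤ S := by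
  have h : Module.Finite ℤ (AddSubgroup.toIntSubmodule S) := inferInstance
  exact h

lemma free_lat {B : Type} [Fintype B] (S : AddSubgroup (B → ℤ)) : Module.Free ℤ S := by
  have h : Module.Free ℤ (AddSubgroup.toIntSubmodule S) := inferInstance
  exact h

theorem model_of_comm (E M : Type) [Field E] [NumberField E] [Field M] [NumberField M]
    [Algebra E M] [IsGalois E M]
    (hin : ∀ 𝔓 : Ideal (𝓞 M), 𝔓.IsMaximal → ¬ ResCharPowDvd E 𝔓 2)
    (L : Type) [Field L] [Algebra E L] (n : ℕ) (x : Fin n → L) (hind : AlgebraicIndependent E x)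
    (hgen : IntermediateField.adjoin E (Set.range x) = ⊤)
    (A : Type) [CommGroup A] [Finite A] [HasEnoughRootsOfUnity M (Monoid.exponent A)]
    (α : A →* (L ≃ₐ[E] L))
    (hlin : ∀ a i, α a (x i) ∈ Submodule.span E (Set.range x))
    (Y : Scheme.{0}) [IsIntegral Y] (s : Y ⟶ Spec (CommRingCat.of ℤ))
    (hs : LocallyOfFiniteType s) (hs' : QuasiCompact s)
    (hF : Nonempty (Y.functionField ≃+* IntermediateField.fixedField α.range)) :
    ∃ (X' : Scheme.{0}) (_ : IsIntegral X') (g : X' ⟶ Spec (CommRingCat.of ℤ)),
        IsProper g ∧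
        (∀ x : X',
          (((Module.finrank (IsLocalRing.ResidueField (X'.presheaf.stalk x))
              (IsLocalRing.CotangentSpace (X'.presheaf.stalk x)) : ℕ∞)) : WithBot ℕ∞)
            = ringKrullDim (X'.presheaf.stalk x)) ∧
        Nonempty (X'.functionField ≃+* Y.functionField) := by
  classical
  have hfinA := Fintype.ofFinite A
  obtain ⟨N, _, _, _, _, j, γ, τ, hindM, hgenM, hγM, hγj, hτj, hcomm⟩ :=
    exists_base (M := M) hind hgen α
  set X : Fin n → N := fun i => j (x i) with hX
  have hlinN : ∀ a i, τ a (X i) ∈ Submodule.span M (Set.range X) := by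
    intro a i
    change τ a (j (x i)) ∈ _
    rw [hτj]
    have h1 := hlin a i
    generalize α a (x i) = w at h1
    induction h1 using Submodule.span_induction with
    | mem y hy =>
      obtain ⟨k, rfl⟩ := hy
      exact Submodule.subset_span ⟨k, rfl⟩
    | zero => rw [map_zero]; exact Submodule.zero_mem _
    | add y w _ _ hy hw => rw [map_add]; exact Submodule.add_mem _ hy hw
    | smul c y _ hy =>
      rw [map_smul, ← algebraMap_smul M c]
      exact Submodule.smul_mem _ _ hy
  have hfinC : Finite (A →* Mˣ) :=
    Finite.of_equiv A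
      (CommGroup.monoidHom_mulEquiv_of_hasEnoughRootsOfUnity A M).some.symm.toEquiv
  have hfinB : Finite (Bt X τ) := inferInstance
  have := Fintype.ofFinite (Bt X τ)
  have hγX : ∀ g i, γ g (X i) = X i := fun g i => hγj g (x i)
  letI := btAct (A := A) (X := X) (τ := τ) (γ := γ) hγM hγX hcomm
  obtain ⟨hv1, hv2⟩ := linear_change hindM hgenM (vv_ind (X := X) (τ := τ))
    (fun ω => vv_mem_span_X hlinN ω) (fun i => X_mem_span_vv i)
  have hact : Act (vv X τ) τ (fun ω : Bt X τ => ω.1.1) γ :=
    { ind := hv1
      gen := hv2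
      hτ := fun a ω => tau_eig a ω.1.1 ω.1.2
      hγM := hγM
      hγv := fun g ω => gamma_eig hγM hγX hcomm g ω.1.1 ω.1.2
      comm := hcomm }
  letI := hact.act
  -- the field of invariants over `E`
  let F := IntermediateField.fixedField α.range
  have hFmem : ∀ z : L, z ∈ F ↔ ∀ a, α a z = z := by
    intro z
    rw [IntermediateField.mem_fixedField_iff]
    constructor
    · intro h a
      exact h _ ⟨a, rfl⟩
    · rintro h _ ⟨a, rfl⟩
      exact h a
  let ι : F →+* fx τ :=
    { toFun := fun f => ⟨j f.1, by
        rw [mem_fx]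
        intro a
        rw [hτj, (hFmem f.1).1 f.2 a]⟩
      map_one' := Subtype.ext (map_one j)
      map_mul' := fun f f' => Subtype.ext (map_mul j f.1 f'.1)
      map_zero' := Subtype.ext (map_zero j)
      map_add' := fun f f' => Subtype.ext (map_add j f.1 f'.1) }
  letI : Algebra F (fx τ) := ι.toAlgebra
  haveI : IsScalarTower E F (fx τ) := by
    refine IsScalarTower.of_algebraMap_eq fun c => ?_
    apply Subtype.ext
    exact (j.commutes c).symm
  have hfix : ∀ y : fx τ, (∀ g, hact.rho g y = y) ↔ ∃ f : F, algebraMap F (fx τ) f = y := by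
    intro y
    constructor
    · intro h
      obtain ⟨f, hf⟩ := descent hindM hgenM hγM hγj y.1 (fun g => congrArg Subtype.val (h g))
      have hfF : f ∈ F := by
        rw [hFmem]
        intro a
        apply j.toRingHom.injective
        change j (α a f) = j f
        rw [← hτj, hf]
        exact mem_fx.1 y.2 a
      exact ⟨⟨f, hfF⟩, Subtype.ext hf⟩
    · rintro ⟨f, rfl⟩ g
      apply Subtype.ext
      exact hγj g f.1
  haveI := finite_lat (lat (fun ω : Bt X τ => ω.1.1))
  haveI := free_lat (lat (fun ω : Bt X τ => ω.1.1))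
  exact Pool.Agent.Results.MP_4d1008_ag.AlgebraicTori.result E M hin (lat (fun ω : Bt X τ => ω.1.1))
    F (fx τ) hact.rho (chr hact.hτ) hact.torus hfix Y inferInstance s hs hs' hF

end Pool.Agent.H865.NF
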