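import Pool.Graph.R_pool_sql_team_seeded_5cf16337.Results.MP_4d1008_ag.AlgebraicTori
import Pool.Agent.H865.NF.Diag

/-!
The fixed field of a finite group which acts diagonally on a field of rational functions, with
a semilinear action of a Galois group which permutes the variables, is the function field of a torus.
-/

set_option autoImplicit false
set_option linter.unusedSectionVars false

namespace Pool.Agent.H865.NF

open Pool.Agent.Results.MP_4d1008_ag.AlgebraicTori

section tor

variable {E M N B A : Type} [Field E] [Field M] [Field N] [Algebra E M] [Algebra M N]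
  [Algebra E N] [IsScalarTower E M N] [Fintype B] [Group A] [MulAction (M ≃ₐ[E] M) B]

/-- The actions. -/
structure Act (v : B → N) (τ : A →* (N ≃ₐ[M] N)) (χ : B → A →* Mˣ)
    (γ : (M ≃ₐ[E] M) →* (N ≃ₐ[E] N)) : Prop where
  ind : AlgebraicIndependent M v
  gen : IntermediateField.adjoin M (Set.range v) = ⊤
  hτ : ∀ a b, τ a (v b) = algebraMap M N (χ b a : Mˣ) * v b
  hγM : ∀ g c, γ g (algebraMap M N c) = algebraMap M N (g c)
  hγv : ∀ g b, γ g (v b) = v (g • b)
  comm : ∀ g a z, γ g (τ a z) = τ a (γ g z)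

variable {v : B → N} {τ : A →* (N ≃ₐ[M] N)} {χ : B → A →* Mˣ}
  {γ : (M ≃ₐ[E] M) →* (N ≃ₐ[E] N)}

lemma Act.ne (h : Act v τ χ γ) (b : B) : v b ≠ 0 := h.ind.ne_zero b

lemma Act.chi (h : Act v τ χ γ) (g : M ≃ₐ[E] M) (b : B) (a : A) :
    (χ (g • b) a : M) = g (χ b a : M) := by
  have h1 := h.comm g a (v b)
  rw [h.hτ, h.hγv, h.hτ, map_mul, h.hγM, h.hγv] at h1
  exact ((algebraMap M N).injective (mul_right_cancel₀ (h.ne (g • b)) h1)).symm

lemma Act.lat_mem (h : Act v τ χ γ) (g : M ≃ₐ[E] M) {f : B → ℤ} (hf : f ∈ lat χ) :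
    (fun b => f (g⁻¹ • b)) ∈ lat χ := by
  rw [mem_lat] at hf ⊢
  intro a
  have h1 : (∏ b, χ b a ^ (f (g⁻¹ • b))) = ∏ b, χ (g • b) a ^ f b := by
    refine Fintype.prod_equiv (MulAction.toPerm (g⁻¹ : M ≃ₐ[E] M)) _ _ fun b => ?_
    change _ = χ (g • g⁻¹ • b) a ^ f (g⁻¹ • b)
    rw [smul_inv_smul]
  rw [h1]
  apply Units.ext
  rw [Units.coe_prod, Units.val_one]
  have h2 : ∀ b, ((χ (g • b) a ^ f b : Mˣ) : M) = g ((χ b a ^ f b : Mˣ) : M) := by
    intro b
    rw [Units.val_zpow_eq_zpow_val, Units.val_zpow_eq_zpow_val, h.chi, map_zpow₀]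
  rw [Finset.prod_congr rfl fun b _ => h2 b, ← map_prod, ← Units.coe_prod, hf a, Units.val_one,
    map_one]

/-- The action of the Galois group on the exponents. -/
@[reducible] def Act.act (h : Act v τ χ γ) : DistribMulAction (M ≃ₐ[E] M) (lat χ) where
  smul g f := ⟨fun b => f.1 (g⁻¹ • b), h.lat_mem g f.2⟩
  one_smul f := by
    apply Subtype.ext
    funext b
    change f.1 ((1 : M ≃ₐ[E] M)⁻¹ • b) = f.1 b
    rw [inv_one, one_smul]
  mul_smul g g' f := by
    apply Subtype.ext
    funext b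
    change f.1 ((g * g')⁻¹ • b) = f.1 (g'⁻¹ • g⁻¹ • b)
    rw [mul_inv_rev, mul_smul]
  smul_zero g := by
    apply Subtype.ext
    rfl
  smul_add g f f' := by
    apply Subtype.ext
    rfl

lemma Act.lm_smul (h : Act v τ χ γ) (g : M ≃ₐ[E] M) (f : B → ℤ) :
    γ g (lm v f) = lm v (fun b => f (g⁻¹ • b)) := by
  have h1 : γ g (lm v f) = lm (fun b => γ g (v b)) f := map_lm (γ g : N →+* N) v f
  rw [h1]
  unfold lm
  refine Fintype.prod_equiv (MulAction.toPerm (g : M ≃ₐ[E] M)) _ _ fun b => ?_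
  change (γ g (v b)) ^ f b = v (g • b) ^ f (g⁻¹ • g • b)
  rw [h.hγv, inv_smul_smul]

/-- The fixed field of the diagonal action. -/
noncomputable def fx (τ : A →* (N ≃ₐ[M] N)) : IntermediateField M N :=
  IntermediateField.fixedField τ.range

lemma mem_fx {z : N} : z ∈ fx τ ↔ ∀ a, τ a z = z := by
  unfold fx
  rw [IntermediateField.mem_fixedField_iff]
  constructor
  · intro h a
    exact h _ ⟨a, rfl⟩
  · rintro h _ ⟨a, rfl⟩
    exact h a

lemma Act.fx_mem (h : Act v τ χ γ) (g : M ≃ₐ[E] M) {z : N} (hz : z ∈ fx τ) : γ g z ∈ fx τ := by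
  rw [mem_fx] at hz ⊢
  intro a
  rw [← h.comm, hz]

/-- The action on the fixed field. -/
noncomputable def Act.rho (h : Act v τ χ γ) : (M ≃ₐ[E] M) →* (fx τ ≃ₐ[E] fx τ) where
  toFun g :=
    { toFun := fun z => ⟨γ g z.1, h.fx_mem g z.2⟩
      invFun := fun z => ⟨γ g⁻¹ z.1, h.fx_mem g⁻¹ z.2⟩
      left_inv := fun z => by
        apply Subtype.ext
        change (γ g⁻¹ * γ g) z.1 = z.1
        rw [← map_mul, inv_mul_cancel, map_one]
        rfl
      right_inv := fun z => by
        apply Subtype.ext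
        change (γ g * γ g⁻¹) z.1 = z.1
        rw [← map_mul, mul_inv_cancel, map_one]
        rfl
      map_mul' := fun z z' => Subtype.ext (map_mul (γ g) z.1 z'.1)
      map_add' := fun z z' => Subtype.ext (map_add (γ g) z.1 z'.1)
      commutes' := fun c => by
        apply Subtype.ext
        exact (γ g).commutes c }
  map_one' := by
    ext z
    change γ 1 z.1 = z.1
    rw [map_one]
    rfl
  map_mul' g g' := by
    ext z
    change γ (g * g') z.1 = γ g (γ g' z.1)
    rw [map_mul]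
    rfl

lemma Act.coe_rho (h : Act v τ χ γ) (g : M ≃ₐ[E] M) (z : fx τ) :
    ((h.rho g z : fx τ) : N) = γ g z.1 := rfl

/-- The characters. -/
noncomputable def chr (hτ : ∀ a b, τ a (v b) = algebraMap M N (χ b a : Mˣ) * v b) (f : lat χ) :
    fx τ :=
  ⟨lm v f, mem_fx.2 fun a => lm_fixed hτ f.2 a⟩

theorem Act.torus [Finite A] [CharZero M] (h : Act v τ χ γ) :
    letI := h.act
    IsTorusFunctionField h.rho (chr h.hτ) := by
  letI := h.act
  refine ⟨?_, ?_, ?_, ?_, ?_, ?_⟩
  · apply Subtype.ext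
    exact lm_zero v
  · intro a b
    apply Subtype.ext
    exact lm_add h.ne _ _
  · have h1 : LinearIndependent M (fun f : lat χ => lm v f.1) :=
      (lm_linearIndependent h.ind).comp _ Subtype.val_injective
    exact LinearIndependent.of_comp (fx τ).val.toLinearMap h1
  · rw [eq_top_iff]
    intro z _
    have h1 : (fx τ).val z ∈ IntermediateField.adjoin M (Set.range fun f : lat χ => lm v f) :=
      mem_adjoin_of_fixed h.gen h.hτ (mem_fx.1 z.2)
    have h2 : (Set.range fun f : lat χ => lm v f) = (fx τ).val '' Set.range (chr h.hτ) := by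
      rw [← Set.range_comp]
      rfl
    rw [h2, ← IntermediateField.adjoin_map] at h1
    obtain ⟨z', hz', h3⟩ := h1
    have h4 : z' = z := Subtype.ext h3
    rwa [← h4]
  · intro g c
    apply Subtype.ext
    exact h.hγM g c
  · intro g f
    apply Subtype.ext
    exact h.lm_smul g f.1

end tor

end Pool.Agent.H865.NF
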